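import Pool.Agent.Helper2_LQF.FLC

/-!
# FLW: the flow
-/

set_option autoImplicit false

open MeasureTheory ProbabilityTheory Function Filter Set

open scoped ENNReal BigOperators Topology NNReal

noncomputable section

namespace Pool.Agent.LE.QF.H2

variable {ι : Type} [Fintype ι] [DecidableEq ι]

/-- the inequality for the derivative -/
theorem der_le (ste : QD.SteStmt) {T : ℝ} {F : ℝ × (ι → ℝ) → ℝ} {a b : ℝ → ℝ}
    (hab : ∀ t, 0 ≤ a t ∧ 0 ≤ b t)
    (h : ∀ q : ℝ × (ι → ℝ), 0 ≤ q.1 → q.1 ≤ T → ContDiffAt ℝ 2 F q)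
    (hb : ∀ q : ℝ × (ι → ℝ), 0 ≤ q.1 → q.1 ≤ T → 0 ≤ F q ∧ F q ≤ 1)
    (hL : ∀ q : ℝ × (ι → ℝ), 0 ≤ q.1 → q.1 ≤ T → LL F q ≤ a q.1 * F q + b q.1)
    {ρ : (ι → ℝ) → ℝ} (hρ : ContDiff ℝ 2 ρ) (hcs : HasCompactSupport ρ)
    (h01 : ∀ v, 0 ≤ ρ v ∧ ρ v ≤ 1) {k₁ k₂ : ℝ}
    (hk₁ : ∀ (v : ι → ℝ) (c : ι), |dD c ρ v| ≤ k₁)
    (hk₂ : ∀ (v : ι → ℝ) (c : ι), |dD c (dD c ρ) v| ≤ k₂) {t : ℝ} (h0 : 0 < t) (h1 : t ≤ T) :
    ∫ V, der ρ F t V ∂(sg ι) ≤ a t * (∫ V, val ρ F t V ∂(sg ι)) + b t +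
      (1 / √t) * (k₁ * ∫ V : ι → ℝ, ∑ c, |V c| ∂(sg ι)) + (1 / 2) * (Fintype.card ι * k₂) := by
  have hs0 : 0 < √t := Real.sqrt_pos.2 h0
  have hρc := hρ.continuous
  have hFc := (sl2 h h0.le h1).continuous
  have hLLc : Continuous fun v : ι → ℝ => LL F (t, v) := by
    have e1 : Continuous fun v : ι → ℝ => ∑ c, dC c (dC c F) (t, v) :=
      continuous_finsetSum _ fun c _ => sl_dC2_cont h c h0.le h1
    exact (e1.const_smul (1 / 2 : ℝ)).add (sl_t_cont h h0.le h1)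
  have CL : CC fun v : ι → ℝ => ρ v * LL F (t, v) := ⟨hρc.mul hLLc, hcs.mul_right⟩
  have CV : CC fun v : ι → ℝ => ρ v * F (t, v) := ⟨hρc.mul hFc, hcs.mul_right⟩
  have CR : ∀ c : ι, CC fun v : ι → ℝ => dD c ρ v * F (t, v) := fun c =>
    ⟨(dD_C1 c hρ).continuous.mul hFc, (dD_cs c hcs).mul_right⟩
  have cY : ∀ c : ι, Continuous (dD c (dD c ρ)) := fun c =>
    ((dD_C1 c hρ).continuous_fderiv one_ne_zero).clm_apply continuous_const
  have CY : ∀ c : ι, CC fun v : ι → ℝ => dD c (dD c ρ) v * F (t, v) := fun c =>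
    ⟨(cY c).mul hFc, (dD_cs c (dD_cs c hcs)).mul_right⟩
  rw [der_int ste h hρ hcs h0 h1]
  have e1 : ∫ V, ρ (√t • V) * LL F (t, √t • V) ∂(sg ι) ≤
      a t * (∫ V, val ρ F t V ∂(sg ι)) + b t := by
    have e2 : ∫ V, ρ (√t • V) * LL F (t, √t • V) ∂(sg ι) ≤
        ∫ V, (a t * val ρ F t V + b t) ∂(sg ι) := by
      refine integral_mono (CL.int (√t)) (((CV.int (√t)).const_mul (a t)).add
        (integrable_const _)) fun V => ?_
      have h2 := hL (t, √t • V) h0.le h1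
      obtain ⟨h3, h4⟩ := h01 (√t • V)
      obtain ⟨h5, h6⟩ := hab t
      unfold val
      have h7 : ρ (√t • V) * LL F (t, √t • V) ≤ ρ (√t • V) * (a t * F (t, √t • V) + b t) :=
        mul_le_mul_of_nonneg_left h2 h3
      have h8 : ρ (√t • V) * b t ≤ 1 * b t := mul_le_mul_of_nonneg_right h4 h6
      change ρ (√t • V) * LL F (t, √t • V) ≤ a t * (ρ (√t • V) * F (t, √t • V)) + b t
      linarith
    have e5 : Integrable (fun V : ι → ℝ => a t * val ρ F t V) (sg ι) :=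
      (CV.int (√t)).const_mul (a t)
    rw [integral_add e5 (integrable_const _), integral_const_mul, integral_const] at e2
    simpa using e2
  have e3 : ∑ c, (∫ V, V c * (dD c ρ (√t • V) * F (t, √t • V)) ∂(sg ι)) ≤
      k₁ * ∫ V : ι → ℝ, ∑ c, |V c| ∂(sg ι) := by
    rw [integral_finsetSum _ fun c _ => (int_coord c).abs, Finset.mul_sum]
    refine Finset.sum_le_sum fun c _ => ?_
    rw [← integral_const_mul]
    refine integral_mono ((CR c).int_mul (√t) c) ((int_coord c).abs.const_mul k₁) fun V => ?_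
    obtain ⟨h3, h4⟩ := hb (t, √t • V) h0.le h1
    change V c * (dD c ρ (√t • V) * F (t, √t • V)) ≤ k₁ * |V c|
    calc V c * (dD c ρ (√t • V) * F (t, √t • V))
        ≤ |V c * (dD c ρ (√t • V) * F (t, √t • V))| := le_abs_self _
      _ = |dD c ρ (√t • V)| * (|F (t, √t • V)| * |V c|) := by
        rw [abs_mul, abs_mul]
        ring
      _ ≤ k₁ * (1 * |V c|) := by
        refine mul_le_mul (hk₁ _ c) (mul_le_mul_of_nonneg_right ?_ (abs_nonneg _))
          (by positivity) ((abs_nonneg _).trans (hk₁ 0 c))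
        rw [abs_of_nonneg h3]
        exact h4
      _ = k₁ * |V c| := by ring
  have e4 : -(Fintype.card ι * k₂) ≤
      ∑ c, ∫ V, dD c (dD c ρ) (√t • V) * F (t, √t • V) ∂(sg ι) := by
    have e5 : ∀ c : ι, -k₂ ≤ ∫ V, dD c (dD c ρ) (√t • V) * F (t, √t • V) ∂(sg ι) := by
      intro c
      have e6 : ∫ _V : ι → ℝ, -k₂ ∂(sg ι) ≤
          ∫ V, dD c (dD c ρ) (√t • V) * F (t, √t • V) ∂(sg ι) := by
        refine integral_mono (integrable_const _) ((CY c).int (√t)) fun V => ?_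
        obtain ⟨h3, h4⟩ := hb (t, √t • V) h0.le h1
        change -k₂ ≤ dD c (dD c ρ) (√t • V) * F (t, √t • V)
        have h5 : |dD c (dD c ρ) (√t • V) * F (t, √t • V)| ≤ k₂ := by
          rw [abs_mul, abs_of_nonneg h3]
          calc |dD c (dD c ρ) (√t • V)| * F (t, √t • V) ≤ k₂ * 1 :=
                mul_le_mul (hk₂ _ c) h4 h3 ((abs_nonneg _).trans (hk₂ 0 c))
            _ = k₂ := mul_one _
        exact (abs_le.1 h5).1
      rw [integral_const] at e6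
      simpa using e6
    calc -(Fintype.card ι * k₂) = ∑ _c : ι, -k₂ := by
          rw [Finset.sum_const, Finset.card_univ, nsmul_eq_mul]
          ring
      _ ≤ _ := Finset.sum_le_sum fun c _ => e5 c
  have e7 : (1 / √t) * ∑ c, (∫ V, V c * (dD c ρ (√t • V) * F (t, √t • V)) ∂(sg ι)) ≤
      (1 / √t) * (k₁ * ∫ V : ι → ℝ, ∑ c, |V c| ∂(sg ι)) :=
    mul_le_mul_of_nonneg_left e3 (by positivity)
  linarith

/-- the Gronwall inequality -/
theorem gron {T : ℝ} (hT : 0 < T) {a b : ℝ → ℝ} (ha : Continuous a) (hbc : Continuous b)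
    (hab : ∀ t, 0 ≤ a t ∧ 0 ≤ b t) {u u' : ℝ → ℝ} {κ₁ κ₂ : ℝ} (hκ₁ : 0 ≤ κ₁) (hκ₂ : 0 ≤ κ₂)
    (hu : ContinuousOn u (Icc 0 T)) (hd : ∀ t ∈ Ioo 0 T, HasDerivAt u (u' t) t)
    (hi : ∀ t ∈ Ioo 0 T, u' t ≤ a t * u t + b t + (1 / √t) * κ₁ + κ₂) :
    u T ≤ Real.exp (∫ t in (0 : ℝ)..T, a t) * (u 0 + (∫ t in (0 : ℝ)..T, b t) +
      2 * √T * κ₁ + T * κ₂) := by
  set A : ℝ → ℝ := fun t => ∫ x in (0 : ℝ)..t, a x with hA
  set B : ℝ → ℝ := fun t => ∫ x in (0 : ℝ)..t, b x with hB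
  have dA : ∀ t, HasDerivAt A (a t) t := fun t =>
    intervalIntegral.integral_hasDerivAt_right (ha.intervalIntegrable _ _)
      ha.stronglyMeasurable.stronglyMeasurableAtFilter ha.continuousAt
  have dB' : ∀ t, HasDerivAt B (b t) t := fun t =>
    intervalIntegral.integral_hasDerivAt_right (hbc.intervalIntegrable _ _)
      hbc.stronglyMeasurable.stronglyMeasurableAtFilter hbc.continuousAt
  have cA : Continuous A := continuous_iff_continuousAt.2 fun t => (dA t).continuousAt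
  have cB : Continuous B := continuous_iff_continuousAt.2 fun t => (dB' t).continuousAt
  set φ : ℝ → ℝ := fun t => u t * Real.exp (-A t) - (B t + 2 * √t * κ₁ + t * κ₂) with hφ
  have cφ : ContinuousOn φ (Icc 0 T) := by
    have e1 : Continuous fun t => Real.exp (-A t) := Real.continuous_exp.comp cA.neg
    have e2 : Continuous fun t : ℝ => B t + 2 * √t * κ₁ + t * κ₂ := by
      have := Real.continuous_sqrt
      fun_prop
    exact (hu.mul e1.continuousOn).sub e2.continuousOn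
  have dφ : ∀ t ∈ Ioo 0 T, HasDerivAt φ (u' t * Real.exp (-A t) +
      u t * (Real.exp (-A t) * -a t) - (b t + 2 * (1 / (2 * √t)) * κ₁ + 1 * κ₂)) t := by
    intro t ht
    have e1 : HasDerivAt (fun t => Real.exp (-A t)) (Real.exp (-A t) * -a t) t :=
      (dA t).neg.exp
    have e2 : HasDerivAt (fun t : ℝ => √t) (1 / (2 * √t)) t := Real.hasDerivAt_sqrt ht.1.ne'
    exact ((hd t ht).mul e1).sub (((dB' t).add ((e2.const_mul 2).mul_const κ₁)).add
      ((hasDerivAt_id t).mul_const κ₂))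
  have hanti : AntitoneOn φ (Icc 0 T) := by
    apply antitoneOn_of_deriv_nonpos (convex_Icc 0 T) cφ
    · rw [interior_Icc]
      exact fun t ht => (dφ t ht).differentiableAt.differentiableWithinAt
    · rw [interior_Icc]
      intro t ht
      rw [(dφ t ht).deriv]
      have hs0 : 0 < √t := Real.sqrt_pos.2 ht.1
      have hA0 : 0 ≤ A t := intervalIntegral.integral_nonneg ht.1.le fun x _ => (hab x).1
      have he1 : Real.exp (-A t) ≤ 1 := by
        rw [Real.exp_le_one_iff]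
        linarith
      have he0 := Real.exp_pos (-A t)
      have h2 := hi t ht
      have h3 : (u' t - a t * u t) * Real.exp (-A t) ≤
          (b t + (1 / √t) * κ₁ + κ₂) * Real.exp (-A t) :=
        mul_le_mul_of_nonneg_right (by linarith) he0.le
      have h4 : (b t + (1 / √t) * κ₁ + κ₂) * Real.exp (-A t) ≤
          (b t + (1 / √t) * κ₁ + κ₂) * 1 := by
        apply mul_le_mul_of_nonneg_left he1
        have := (hab t).2
        positivity
      have h5 : 2 * (1 / (2 * √t)) * κ₁ = (1 / √t) * κ₁ := by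
        field_simp
      rw [h5]
      nlinarith [h3, h4]
  have h6 := hanti (left_mem_Icc.2 hT.le) (right_mem_Icc.2 hT.le) hT.le
  have hA0 : A 0 = 0 := intervalIntegral.integral_same
  have hB0 : B 0 = 0 := intervalIntegral.integral_same
  simp only [hφ, hA0, hB0, Real.sqrt_zero, neg_zero, Real.exp_zero] at h6
  have h7 : u T * Real.exp (-A T) ≤ u 0 + B T + 2 * √T * κ₁ + T * κ₂ := by linarith
  have h8 : u T = Real.exp (A T) * (u T * Real.exp (-A T)) := by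
    rw [mul_comm (u T), ← mul_assoc, ← Real.exp_add, add_neg_cancel, Real.exp_zero, one_mul]
  rw [h8]
  exact mul_le_mul_of_nonneg_left h7 (Real.exp_pos _).le

/-- the inequality with a cutoff -/
theorem cut_le (ste : QD.SteStmt) {T : ℝ} (hT : 0 < T) {F : ℝ × (ι → ℝ) → ℝ} {a b : ℝ → ℝ}
    (ha : Continuous a) (hbc : Continuous b) (hab : ∀ t, 0 ≤ a t ∧ 0 ≤ b t)
    (h : ∀ q : ℝ × (ι → ℝ), 0 ≤ q.1 → q.1 ≤ T → ContDiffAt ℝ 2 F q)
    (hb : ∀ q : ℝ × (ι → ℝ), 0 ≤ q.1 → q.1 ≤ T → 0 ≤ F q ∧ F q ≤ 1)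
    (hL : ∀ q : ℝ × (ι → ℝ), 0 ≤ q.1 → q.1 ≤ T → LL F q ≤ a q.1 * F q + b q.1)
    {ρ : (ι → ℝ) → ℝ} (hρ : ContDiff ℝ 2 ρ) (hcs : HasCompactSupport ρ)
    (h01 : ∀ v, 0 ≤ ρ v ∧ ρ v ≤ 1) (hρ0 : ρ 0 = 1) {k₁ k₂ : ℝ} (hk₁0 : 0 ≤ k₁) (hk₂0 : 0 ≤ k₂)
    (hk₁ : ∀ (v : ι → ℝ) (c : ι), |dD c ρ v| ≤ k₁)
    (hk₂ : ∀ (v : ι → ℝ) (c : ι), |dD c (dD c ρ) v| ≤ k₂) :
    ∫ V, val ρ F T V ∂(sg ι) ≤ Real.exp (∫ t in (0 : ℝ)..T, a t) * (F (0, 0) +
      (∫ t in (0 : ℝ)..T, b t) + 2 * √T * (k₁ * ∫ V : ι → ℝ, ∑ c, |V c| ∂(sg ι)) +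
        T * ((1 / 2) * (Fintype.card ι * k₂))) := by
  have e0 : ∫ V, val ρ F 0 V ∂(sg ι) = F (0, 0) := by
    have e1 : ∀ V : ι → ℝ, val ρ F 0 V = F (0, 0) := by
      intro V
      unfold val
      rw [Real.sqrt_zero, zero_smul, hρ0, one_mul]
    simp only [e1, integral_const]
    simp
  have hE : 0 ≤ ∫ V : ι → ℝ, ∑ c, |V c| ∂(sg ι) :=
    integral_nonneg fun V => Finset.sum_nonneg fun _ _ => abs_nonneg _
  have key := gron hT ha hbc hab (u := fun x => ∫ V, val ρ F x V ∂(sg ι))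
    (u' := fun x => ∫ V, der ρ F x V ∂(sg ι))
    (κ₁ := k₁ * ∫ V : ι → ℝ, ∑ c, |V c| ∂(sg ι)) (κ₂ := (1 / 2) * (Fintype.card ι * k₂))
    (mul_nonneg hk₁0 hE) (by positivity) (u_cont h hb hρ h01)
    (fun t ht => u_der h hb hρ hcs h01 ht.1 ht.2)
    (fun t ht => der_le ste hab h hb hL hρ hcs h01 hk₁ hk₂ ht.1 ht.2.le)
  rw [← e0]
  exact key

theorem dD_scale (c : ι) {ρ : (ι → ℝ) → ℝ} (hρ : Differentiable ℝ ρ) (k : ℝ) (v : ι → ℝ) :
    dD c (fun v => ρ (k • v)) v = k * dD c ρ (k • v) := by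
  unfold dD
  have e1 : HasFDerivAt (fun v : ι → ℝ => k • v) (k • ContinuousLinearMap.id ℝ (ι → ℝ)) v :=
    (hasFDerivAt_id v).const_smul k
  have e2 := (hρ (k • v)).hasFDerivAt.comp v e1
  have e3 : fderiv ℝ (fun v => ρ (k • v)) v =
      (fderiv ℝ ρ (k • v)).comp (k • ContinuousLinearMap.id ℝ (ι → ℝ)) := e2.fderiv
  rw [e3]
  simp

theorem flw (ste : QD.SteStmt) : FlwStmt := by
  intro ι _ _ T a b F hT ha hbc hab hF
  have h : ∀ q : ℝ × (ι → ℝ), 0 ≤ q.1 → q.1 ≤ T → ContDiffAt ℝ 2 F q :=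
    fun q h0 h1 => (hF q h0 h1).1
  have hb : ∀ q : ℝ × (ι → ℝ), 0 ≤ q.1 → q.1 ≤ T → 0 ≤ F q ∧ F q ≤ 1 :=
    fun q h0 h1 => ⟨(hF q h0 h1).2.1, (hF q h0 h1).2.2.1⟩
  have hL : ∀ q : ℝ × (ι → ℝ), 0 ≤ q.1 → q.1 ≤ T → LL F q ≤ a q.1 * F q + b q.1 :=
    fun q h0 h1 => (hF q h0 h1).2.2.2
  have hFc := (sl2 h hT.le le_rfl).continuous
  rw [scale hT.le (fun V => F (T, V)) hFc]
  obtain ⟨ρ, hρ, hcs, h01, h1⟩ := exists_cut (ι := ι)
  -- bounds of the derivatives of `ρ`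
  have B1 : ∀ c : ι, ∃ B, 0 ≤ B ∧ ∀ v, |dD c ρ v| ≤ B := fun c =>
    CC.bdd ⟨(dD_C1 c hρ).continuous, dD_cs c hcs⟩
  have B2 : ∀ c : ι, ∃ B, 0 ≤ B ∧ ∀ v, |dD c (dD c ρ) v| ≤ B := fun c =>
    CC.bdd ⟨((dD_C1 c hρ).continuous_fderiv one_ne_zero).clm_apply continuous_const,
      dD_cs c (dD_cs c hcs)⟩
  choose b₁ hb₁0 hb₁ using B1
  choose b₂ hb₂0 hb₂ using B2
  set K₁ : ℝ := ∑ c, b₁ c with hK₁
  set K₂ : ℝ := ∑ c, b₂ c with hK₂
  have hK₁0 : 0 ≤ K₁ := Finset.sum_nonneg fun c _ => hb₁0 c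
  have hK₂0 : 0 ≤ K₂ := Finset.sum_nonneg fun c _ => hb₂0 c
  have hc₁ : ∀ (v : ι → ℝ) (c : ι), |dD c ρ v| ≤ K₁ := fun v c =>
    (hb₁ c v).trans (Finset.single_le_sum (fun c _ => hb₁0 c) (Finset.mem_univ c))
  have hc₂ : ∀ (v : ι → ℝ) (c : ι), |dD c (dD c ρ) v| ≤ K₂ := fun v c =>
    (hb₂ c v).trans (Finset.single_le_sum (fun c _ => hb₂0 c) (Finset.mem_univ c))
  -- the scaled cutoffs
  set k : ℕ → ℝ := fun n => 1 / ((n : ℝ) + 1) with hk
  have hk0 : ∀ n, 0 < k n := fun n => by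
    simp only [hk]
    positivity
  have hle : ∀ n, ∫ V, val (fun v => ρ (k n • v)) F T V ∂(sg ι) ≤
      Real.exp (∫ t in (0 : ℝ)..T, a t) * (F (0, 0) + (∫ t in (0 : ℝ)..T, b t) +
        2 * √T * ((k n * K₁) * ∫ V : ι → ℝ, ∑ c, |V c| ∂(sg ι)) +
        T * ((1 / 2) * (Fintype.card ι * (k n * (k n * K₂))))) := by
    intro n
    have hsm : ContDiff ℝ 2 fun v : ι → ℝ => ρ (k n • v) := hρ.comp (contDiff_const_smul (k n))
    have hd1 : ∀ c : ι, dD c (fun v => ρ (k n • v)) = fun v => k n * dD c ρ (k n • v) := by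
      intro c
      funext v
      exact dD_scale c (hρ.differentiable two_ne_zero) (k n) v
    have hd2 : ∀ c : ι, ∀ v, dD c (dD c (fun v => ρ (k n • v))) v =
        k n * (k n * dD c (dD c ρ) (k n • v)) := by
      intro c v
      rw [hd1 c]
      have e1 := dD_scale c ((dD_C1 c hρ).differentiable one_ne_zero) (k n) v
      have e2 : dD c (fun v => k n * dD c ρ (k n • v)) v =
          k n * dD c (fun v => dD c ρ (k n • v)) v := by
        unfold dD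
        rw [fderiv_const_mul]
        · simp
        · exact (((dD_C1 c hρ).comp (contDiff_const_smul (k n))).differentiable
            one_ne_zero) v
      rw [e2, e1]
    refine cut_le ste hT ha hbc hab h hb hL hsm ?_ (fun v => h01 _) ?_
      (mul_nonneg (hk0 n).le hK₁0) (mul_nonneg (hk0 n).le (mul_nonneg (hk0 n).le hK₂0)) ?_ ?_
    · exact hcs.comp_homeomorph (Homeomorph.smulOfNeZero (k n) (hk0 n).ne')
    · rw [smul_zero]
      exact h1 0 (by simp)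
    · intro v c
      rw [hd1 c, abs_mul, abs_of_pos (hk0 n)]
      exact mul_le_mul_of_nonneg_left (hc₁ _ c) (hk0 n).le
    · intro v c
      rw [hd2 c, abs_mul, abs_mul, abs_of_pos (hk0 n)]
      exact mul_le_mul_of_nonneg_left (mul_le_mul_of_nonneg_left (hc₂ _ c) (hk0 n).le)
        (hk0 n).le
  have hkl : Tendsto k atTop (𝓝 0) := tendsto_one_div_add_atTop_nhds_zero_nat
  have l1 : Tendsto (fun n => ∫ V, val (fun v => ρ (k n • v)) F T V ∂(sg ι)) atTop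
      (𝓝 (∫ V, F (T, √T • V) ∂(sg ι))) := by
    refine tendsto_integral_of_dominated_convergence (fun _ => (1 : ℝ)) ?_ (integrable_const _)
      ?_ ?_
    · intro n
      exact (val_cont h (hρ.comp (contDiff_const_smul (k n))) hT.le le_rfl).aestronglyMeasurable
    · intro n
      refine Eventually.of_forall fun V => ?_
      unfold val
      obtain ⟨a1, a2⟩ := h01 (k n • √T • V)
      obtain ⟨a3, a4⟩ := hb (T, √T • V) hT.le le_rfl
      rw [Real.norm_of_nonneg (mul_nonneg a1 a3)]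
      exact mul_le_one₀ a2 a3 a4
    · refine Eventually.of_forall fun V => ?_
      have e1 : Tendsto (fun n => k n • √T • V) atTop (𝓝 0) := by
        have e2 := hkl.smul_const (√T • V)
        rwa [zero_smul] at e2
      have e3 : ∀ᶠ n in atTop, ‖k n • √T • V‖ < 1 := by
        have e4 := e1.norm
        rw [norm_zero] at e4
        exact e4.eventually (gt_mem_nhds one_pos)
      refine tendsto_const_nhds.congr' ?_
      filter_upwards [e3] with n hn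
      change F (T, √T • V) = ρ (k n • √T • V) * F (T, √T • V)
      rw [h1 _ hn.le, one_mul]
  have l2 : Tendsto (fun n => Real.exp (∫ t in (0 : ℝ)..T, a t) * (F (0, 0) +
      (∫ t in (0 : ℝ)..T, b t) + 2 * √T * ((k n * K₁) * ∫ V : ι → ℝ, ∑ c, |V c| ∂(sg ι)) +
        T * ((1 / 2) * (Fintype.card ι * (k n * (k n * K₂)))))) atTop
      (𝓝 (Real.exp (∫ t in (0 : ℝ)..T, a t) * (F (0, 0) +
      (∫ t in (0 : ℝ)..T, b t) + 2 * √T * (((0 : ℝ) * K₁) * ∫ V : ι → ℝ, ∑ c, |V c| ∂(sg ι)) +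
        T * ((1 / 2) * (Fintype.card ι * ((0 : ℝ) * ((0 : ℝ) * K₂))))))) := by
    refine Tendsto.const_mul _ (((tendsto_const_nhds).add ?_).add ?_)
    · exact ((hkl.mul_const K₁).mul_const _).const_mul _
    · exact (((hkl.mul (hkl.mul_const K₂)).const_mul _).const_mul _).const_mul _
  have l3 := le_of_tendsto_of_tendsto' l1 l2 hle
  refine l3.trans (le_of_eq ?_)
  ring

end Pool.Agent.LE.QF.H2
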