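import Pool.Agent.LE.StmtsQF

/-!
# GDC: from the functional to the good point
-/

set_option autoImplicit false

open scoped BigOperators Matrix

noncomputable section

namespace Pool.Agent.LE.QF.H2

theorem gdc : GdcStmt := by
  intro c₁ C₁ hc₁ hC₁
  set C₀ : ℝ := C₁ + 5 + 4 / c₁ with hC₀
  have h4c : 0 < 4 / c₁ := by positivity
  have hC₀6 : 6 ≤ C₀ := by linarith
  refine ⟨min (c₁ / 2) (1 / (2 * C₀)), C₀, ?_, ?_, by linarith, ?_⟩
  · exact lt_min (by positivity) (by positivity)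
  · refine (min_le_right _ _).trans ?_
    rw [div_le_div_iff₀ (by positivity) (by norm_num)]
    linarith
  intro X _ _ G G₀ φ m 𝒩 κ τ δ N hκ hκ1 hκτ hm1 hm2 hδ hδc hN hs hs₀ hw hμ hφ hXh hG₀ h𝒩 hN'
  have hmp : 0 < m.im := by linarith
  have hτ : 0 < τ := by
    by_contra h
    push Not at h
    have : τ * m.im ≤ 0 := mul_nonpos_of_nonpos_of_nonneg h hmp.le
    linarith
  have hδ1 : δ ≤ c₁ / 2 := hδc.trans (min_le_left _ _)
  have hδ2 : C₀ * δ ≤ 1 / 2 := by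
    have h1 : δ ≤ 1 / (2 * C₀) := hδc.trans (min_le_right _ _)
    calc C₀ * δ ≤ C₀ * (1 / (2 * C₀)) := mul_le_mul_of_nonneg_left h1 (by linarith)
      _ = 1 / 2 := by field_simp
  have hδ3 : 4 * δ ≤ 1 / 2 := by
    have : 4 * δ ≤ C₀ * δ := mul_le_mul_of_nonneg_right (by linarith) hδ
    linarith
  -- the row sums
  have hR : ∀ a, κ * ∑ b, ‖G a b‖ ^ 2 = (G a a).im := by
    intro a
    have h1 := hw a a
    have h2 : ∑ c, G a c * (starRingEnd ℂ) (G a c) = ((∑ c, ‖G a c‖ ^ 2 : ℝ) : ℂ) := by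
      push_cast
      refine Finset.sum_congr rfl fun c _ => ?_
      rw [Complex.mul_conj, Complex.normSq_eq_norm_sq]
      push_cast
      rfl
    rw [h2] at h1
    exact_mod_cast h1
  have hR' : ∀ a, (τ * ∑ b, ‖G a b‖ ^ 2) * m.im = (G a a).im := by
    intro a
    rw [← hR a, hκτ]
    ring
  have hR0 : ∀ a, 0 ≤ τ * ∑ b, ‖G a b‖ ^ 2 := fun a =>
    mul_nonneg hτ.le (Finset.sum_nonneg fun _ _ => by positivity)
  -- `μ`
  have hμ1 : ∀ a, ‖G a a - m‖ ≤ δ * (1 + τ * ∑ b, ‖G a b‖ ^ 2) := by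
    intro a
    rw [hμ a]
    have h1 : ‖(BB G *ᵥ φ) a‖ ≤ (∑ b, ‖G a b‖ ^ 2) * δ := by
      change ‖∑ b, G a b ^ 2 * φ b‖ ≤ _
      rw [Finset.sum_mul]
      refine (norm_sum_le _ _).trans (Finset.sum_le_sum fun b _ => ?_)
      rw [norm_mul, norm_pow]
      exact mul_le_mul_of_nonneg_left (hφ b) (by positivity)
    calc ‖φ a - τ * (BB G *ᵥ φ) a‖ ≤ ‖φ a‖ + ‖(τ : ℂ) * (BB G *ᵥ φ) a‖ := norm_sub_le _ _
      _ ≤ δ + τ * ((∑ b, ‖G a b‖ ^ 2) * δ) := by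
        refine add_le_add (hφ a) ?_
        rw [norm_mul, Complex.norm_real, Real.norm_of_nonneg hτ.le]
        exact mul_le_mul_of_nonneg_left h1 hτ.le
      _ = δ * (1 + τ * ∑ b, ‖G a b‖ ^ 2) := by ring
  have him : ∀ a, |(G a a).im - m.im| ≤ ‖G a a - m‖ := by
    intro a
    have h1 := Complex.abs_im_le_norm (G a a - m)
    rwa [Complex.sub_im] at h1
  have hμ4 : ∀ a, ‖G a a - m‖ ≤ 4 * δ := by
    intro a
    set x := ‖G a a - m‖ with hx
    set r := τ * ∑ b, ‖G a b‖ ^ 2 with hr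
    have hx0 : 0 ≤ x := norm_nonneg _
    have h1 : x ≤ δ * (1 + r) := hμ1 a
    have h2 : r * m.im = (G a a).im := hR' a
    have h3 := (abs_le.1 (him a)).2
    -- `r ≤ 1 + x / c₁`
    have h4 : c₁ * (r - 1) ≤ x := by
      by_cases hr1 : 1 ≤ r
      · calc c₁ * (r - 1) ≤ m.im * (r - 1) := mul_le_mul_of_nonneg_right hm1 (by linarith)
          _ = (G a a).im - m.im := by rw [← h2]; ring
          _ ≤ x := h3
      · push Not at hr1
        have : c₁ * (r - 1) ≤ 0 := mul_nonpos_of_nonneg_of_nonpos hc₁.le (by linarith)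
        linarith
    have h5 : δ * (r - 1) ≤ x / 2 := by
      by_cases hr1 : 1 ≤ r
      · calc δ * (r - 1) ≤ (c₁ / 2) * (r - 1) :=
              mul_le_mul_of_nonneg_right hδ1 (by linarith)
          _ = (c₁ * (r - 1)) / 2 := by ring
          _ ≤ x / 2 := by linarith
      · push Not at hr1
        have : δ * (r - 1) ≤ 0 := mul_nonpos_of_nonneg_of_nonpos hδ (by linarith)
        linarith
    have h6 : δ * (1 + r) = 2 * δ + δ * (r - 1) := by ring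
    linarith
  have hk : ∀ a, |τ * ∑ b, ‖G a b‖ ^ 2 - 1| ≤ 4 * δ / c₁ := by
    intro a
    have h1 : |τ * ∑ b, ‖G a b‖ ^ 2 - 1| * m.im = |(G a a).im - m.im| := by
      rw [← hR' a, ← abs_of_pos hmp, ← abs_mul, abs_of_pos hmp]
      congr 1
      ring
    rw [le_div_iff₀ hc₁]
    calc |τ * ∑ b, ‖G a b‖ ^ 2 - 1| * c₁ ≤ |τ * ∑ b, ‖G a b‖ ^ 2 - 1| * m.im :=
          mul_le_mul_of_nonneg_left hm1 (abs_nonneg _)
      _ = |(G a a).im - m.im| := h1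
      _ ≤ ‖G a a - m‖ := him a
      _ ≤ 4 * δ := hμ4 a
  have hr3 : ∀ a, τ * ∑ b, ‖G a b‖ ^ 2 ≤ 3 := by
    intro a
    have h1 := (abs_le.1 (hk a)).2
    have h2 : 4 * δ / c₁ ≤ 2 := by
      rw [div_le_iff₀ hc₁]
      linarith
    linarith
  -- `G - G₀`
  have hGD : ∀ a b, ‖(τ : ℂ) * GD G φ a b‖ ≤ 3 * δ := by
    intro a b
    have h1 : GD G φ a b = ∑ c, G a c * φ c * G c b := by
      unfold GD
      rw [Matrix.mul_apply]
      refine Finset.sum_congr rfl fun c _ => ?_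
      rw [Matrix.mul_diagonal]
    have h2 : ‖GD G φ a b‖ ≤ ∑ c, ((‖G a c‖ ^ 2 + ‖G b c‖ ^ 2) / 2) * δ := by
      rw [h1]
      refine (norm_sum_le _ _).trans (Finset.sum_le_sum fun c _ => ?_)
      rw [norm_mul, norm_mul, hs c b]
      have h3 : ‖G a c‖ * ‖G b c‖ ≤ (‖G a c‖ ^ 2 + ‖G b c‖ ^ 2) / 2 := by
        nlinarith [sq_nonneg (‖G a c‖ - ‖G b c‖)]
      calc ‖G a c‖ * ‖φ c‖ * ‖G b c‖ = (‖G a c‖ * ‖G b c‖) * ‖φ c‖ := by ring
        _ ≤ ((‖G a c‖ ^ 2 + ‖G b c‖ ^ 2) / 2) * δ :=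
          mul_le_mul h3 (hφ c) (norm_nonneg _) (by positivity)
    rw [norm_mul, Complex.norm_real, Real.norm_of_nonneg hτ.le]
    calc τ * ‖GD G φ a b‖ ≤ τ * ∑ c, ((‖G a c‖ ^ 2 + ‖G b c‖ ^ 2) / 2) * δ :=
          mul_le_mul_of_nonneg_left h2 hτ.le
      _ = ((τ * ∑ c, ‖G a c‖ ^ 2 + τ * ∑ c, ‖G b c‖ ^ 2) / 2) * δ := by
        rw [← Finset.sum_mul, ← Finset.sum_div, Finset.sum_add_distrib]
        ring
      _ ≤ 3 * δ := by
        apply mul_le_mul_of_nonneg_right _ hδ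
        linarith [hr3 a, hr3 b]
  have hd : ∀ a b, ‖G a b - G₀ a b‖ ≤ 4 * δ := by
    intro a b
    have h1 : G a b - G₀ a b = (G a b + τ * GD G φ a b - G₀ a b) - τ * GD G φ a b := by ring
    rw [h1]
    refine (norm_sub_le _ _).trans ?_
    linarith [hXh a b, hGD a b]
  have hn : ∀ a b, ‖G a b‖ ≤ ‖G₀ a b‖ + 4 * δ := by
    intro a b
    have h1 : G a b = G₀ a b + (G a b - G₀ a b) := by ring
    calc ‖G a b‖ = ‖G₀ a b + (G a b - G₀ a b)‖ := by rw [← h1]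
      _ ≤ ‖G₀ a b‖ + ‖G a b - G₀ a b‖ := norm_add_le _ _
      _ ≤ ‖G₀ a b‖ + 4 * δ := by linarith [hd a b]
  refine ⟨⟨hκ, hκ1, hτ, ?_, ?_⟩, ⟨hδ, hδ2, hN⟩, hs, hw, ?_, ?_, ?_, ?_, hN'⟩
  · rw [hκτ, mul_comm]
    exact mul_le_mul_of_nonneg_right (by linarith) hτ.le
  · have h1 : τ = (1 / m.im) * κ := by
      rw [hκτ]
      field_simp
    have h2 : 1 / m.im ≤ C₀ := by
      have h3 : 1 / m.im ≤ 1 / c₁ := one_div_le_one_div_of_le hc₁ hm1
      have h4 : 1 / c₁ ≤ 4 / c₁ := by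
        rw [div_le_div_iff_of_pos_right hc₁]
        norm_num
      linarith
    calc τ = (1 / m.im) * κ := h1
      _ ≤ C₀ * κ := mul_le_mul_of_nonneg_right h2 hκ.le
  · intro a
    refine (hk a).trans ?_
    calc 4 * δ / c₁ = (4 / c₁) * δ := by ring
      _ ≤ C₀ * δ := mul_le_mul_of_nonneg_right (by linarith) hδ
  · intro a
    exact (hμ4 a).trans (mul_le_mul_of_nonneg_right (by linarith) hδ)
  · intro a b
    have h1 := hn a b
    have h2 := hG₀ a b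
    linarith
  · intro a b
    refine ⟨by rw [h𝒩 a b, h𝒩 b a, hs₀ a b], fun h => ?_⟩
    rw [h𝒩 a b, not_lt] at h
    have h1 := hn a b
    have h2 : 5 * δ ≤ C₀ * δ := mul_le_mul_of_nonneg_right (by linarith) hδ
    linarith

end Pool.Agent.LE.QF.H2
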