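import Pool.Agent.LE.StmtsQF

/-!
# FLW, part 1: Gaussian tools
-/

set_option autoImplicit false

open MeasureTheory ProbabilityTheory Function Filter Set

open scoped ENNReal BigOperators Topology NNReal

noncomputable section

namespace Pool.Agent.LE.QF.H2

variable {ι : Type} [Fintype ι] [DecidableEq ι]

/-- the standard Gaussian measure -/
abbrev sg (ι : Type) [Fintype ι] : Measure (ι → ℝ) := Measure.pi fun _ : ι => gaussianReal 0 1

omit [DecidableEq ι] in
theorem scale {T : ℝ} (hT : 0 ≤ T) (g : (ι → ℝ) → ℝ) (hg : Continuous g) :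
    ∫ V, g V ∂(Measure.pi fun _ : ι => gaussianReal 0 T.toNNReal) =
      ∫ V, g (√T • V) ∂(sg ι) := by
  have h3 : (gaussianReal 0 1).map (fun x => √T * x) = gaussianReal 0 T.toNNReal := by
    rw [gaussianReal_map_const_mul, mul_zero, mul_one]
    congr 1
    apply NNReal.eq
    rw [Real.coe_toNNReal T hT]
    exact Real.sq_sqrt hT
  have h1 : (sg ι).map (fun V => √T • V) =
      Measure.pi fun _ : ι => gaussianReal 0 T.toNNReal := by
    have h2 := Measure.pi_map_pi (μ := fun _ : ι => gaussianReal 0 1)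
      (f := fun (_ : ι) (x : ℝ) => √T * x) (hμ := fun _ => by rw [h3]; infer_instance)
      (fun i => by fun_prop)
    have h4 : (fun V : ι → ℝ => √T • V) = fun x i => √T * x i := by
      funext V i
      rfl
    rw [h4, sg, h2, h3]
  rw [← h1, integral_map (by fun_prop) hg.aestronglyMeasurable]

omit [DecidableEq ι] in
theorem int_coord (c : ι) : Integrable (fun V : ι → ℝ => V c) (sg ι) := by
  have h := measurePreserving_eval (fun _ : ι => gaussianReal 0 1) c
  have h2 : Integrable (id : ℝ → ℝ) (gaussianReal 0 1) :=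
    (memLp_id_gaussianReal 1).integrable le_rfl
  exact h.integrable_comp_of_integrable h2

omit [DecidableEq ι] in
theorem norm_le_sum (V : ι → ℝ) : ‖V‖ ≤ ∑ c, |V c| := by
  rw [pi_norm_le_iff_of_nonneg (Finset.sum_nonneg fun _ _ => abs_nonneg _)]
  intro c
  exact Finset.single_le_sum (f := fun c => |V c|) (fun _ _ => abs_nonneg _) (Finset.mem_univ c)

omit [DecidableEq ι] in
theorem int_sum : Integrable (fun V : ι → ℝ => ∑ c, |V c|) (sg ι) :=
  integrable_finsetSum _ fun c _ => (int_coord c).abs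

omit [DecidableEq ι] in
theorem int_norm : Integrable (fun V : ι → ℝ => ‖V‖) (sg ι) := by
  refine int_sum.mono' continuous_norm.aestronglyMeasurable (Eventually.of_forall fun V => ?_)
  rw [norm_norm]
  exact norm_le_sum V

theorem ibp (ste : QD.SteStmt) (c : ι) (f : (ι → ℝ) → ℝ) (hf : ContDiff ℝ 1 f)
    (hc : HasCompactSupport f) {s : ℝ} (hs : 0 ≤ s) :
    ∫ V, V c * f (s • V) ∂(sg ι) =
      s * ∫ V, fderiv ℝ f (s • V) (Pi.single c 1) ∂(sg ι) := by
  have hf' : Continuous (fderiv ℝ f) := hf.continuous_fderiv one_ne_zero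
  obtain ⟨B₁, hB₁⟩ := hf.continuous.bounded_above_of_compact_support hc
  obtain ⟨B₂, hB₂⟩ := hf'.bounded_above_of_compact_support (hc.fderiv (𝕜 := ℝ))
  have e1 : ‖(Pi.single c (1 : ℝ) : ι → ℝ)‖ ≤ 1 := by
    rw [pi_norm_le_iff_of_nonneg zero_le_one]
    intro i
    by_cases h : i = c
    · subst h
      simp
    · simp [Pi.single_eq_of_ne h]
  have hB₂0 : 0 ≤ B₂ := (norm_nonneg _).trans (hB₂ 0)
  have key := ste ι 1 c (fun V => ((f (s • V) : ℝ) : ℂ))
    (fun V => ((s * fderiv ℝ f (s • V) (Pi.single c 1) : ℝ) : ℂ)) (max B₁ (s * B₂))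
    (by
      have := hf.continuous
      fun_prop)
    (by
      apply Complex.continuous_ofReal.comp
      apply continuous_const.mul
      exact (hf'.comp (continuous_const_smul s)).clm_apply continuous_const)
    (fun V => by
      rw [Complex.norm_real]
      exact (hB₁ _).trans (le_max_left _ _))
    (fun V => by
      rw [Complex.norm_real, norm_mul, Real.norm_of_nonneg hs]
      refine le_trans ?_ (le_max_right _ _)
      apply mul_le_mul_of_nonneg_left _ hs
      calc ‖fderiv ℝ f (s • V) (Pi.single c 1)‖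
          ≤ ‖fderiv ℝ f (s • V)‖ * ‖(Pi.single c (1 : ℝ) : ι → ℝ)‖ :=
            ContinuousLinearMap.le_opNorm _ _
        _ ≤ B₂ * 1 := mul_le_mul (hB₂ _) e1 (norm_nonneg _) hB₂0
        _ = B₂ := mul_one _)
    (fun V => by
      apply HasDerivAt.ofReal_comp
      have h1 : HasFDerivAt f (fderiv ℝ f (s • update V c (V c)))
          (s • update V c (V c)) :=
        (hf.differentiable one_ne_zero _).hasFDerivAt
      have h2 : HasDerivAt (fun t => s • update V c t) (s • Pi.single c (1 : ℝ)) (V c) :=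
        (hasDerivAt_update V c (V c)).const_smul s
      have h3 := h1.comp_hasDerivAt (V c) h2
      rw [map_smul, update_eq_self] at h3
      exact h3)
  have e2 : (fun V : ι → ℝ => ((V c : ℝ) : ℂ) * ((f (s • V) : ℝ) : ℂ)) =
      fun V => (((V c * f (s • V)) : ℝ) : ℂ) := by
    funext V
    push_cast
    rfl
  rw [e2, integral_complex_ofReal, integral_complex_ofReal, integral_const_mul] at key
  rw [NNReal.coe_one, Complex.ofReal_one, one_mul] at key
  exact Complex.ofReal_injective key

omit [DecidableEq ι] in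
theorem exists_cut : ∃ ρ : (ι → ℝ) → ℝ, ContDiff ℝ 2 ρ ∧ HasCompactSupport ρ ∧
    (∀ x, 0 ≤ ρ x ∧ ρ x ≤ 1) ∧ ∀ x, ‖x‖ ≤ 1 → ρ x = 1 := by
  let b : ContDiffBump (0 : ι → ℝ) := ⟨1, 2, one_pos, one_lt_two⟩
  refine ⟨b, b.contDiff, b.hasCompactSupport, fun x => ⟨b.nonneg, b.le_one⟩, fun x hx => ?_⟩
  apply b.one_of_mem_closedBall
  rw [Metric.mem_closedBall, dist_zero_right]
  exact hx

end Pool.Agent.LE.QF.H2
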