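import Pool.Agent.Helper2_LQF.FLA

/-!
# FLW, part 2: the derivative in the time
-/

set_option autoImplicit false

open MeasureTheory ProbabilityTheory Function Filter Set

open scoped ENNReal BigOperators Topology NNReal

noncomputable section

namespace Pool.Agent.LE.QF.H2

variable {ι : Type} [Fintype ι] [DecidableEq ι]

/-- continuous with compact support -/
def CC (f : (ι → ℝ) → ℝ) : Prop := Continuous f ∧ HasCompactSupport f

omit [DecidableEq ι] in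
theorem CC.bdd {f : (ι → ℝ) → ℝ} (h : CC f) : ∃ B, 0 ≤ B ∧ ∀ v, |f v| ≤ B := by
  obtain ⟨B, hB⟩ := h.1.bounded_above_of_compact_support h.2
  exact ⟨B, (norm_nonneg _).trans (hB 0), hB⟩

omit [DecidableEq ι] in
theorem CC.int {f : (ι → ℝ) → ℝ} (h : CC f) (s : ℝ) :
    Integrable (fun V => f (s • V)) (sg ι) := by
  obtain ⟨B, hB0, hB⟩ := h.bdd
  refine (integrable_const B).mono' ?_ (Eventually.of_forall fun V => hB _)
  exact (h.1.comp (continuous_const_smul s)).aestronglyMeasurable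

omit [DecidableEq ι] in
theorem CC.int_mul {f : (ι → ℝ) → ℝ} (h : CC f) (s : ℝ) (c : ι) :
    Integrable (fun V => V c * f (s • V)) (sg ι) := by
  obtain ⟨B, hB0, hB⟩ := h.bdd
  refine ((int_coord c).abs.mul_const B).mono' ?_ (Eventually.of_forall fun V => ?_)
  · exact ((continuous_apply c).mul (h.1.comp (continuous_const_smul s))).aestronglyMeasurable
  · rw [norm_mul]
    exact mul_le_mul_of_nonneg_left (hB _) (abs_nonneg _)

theorem lin_pi (L : (ι → ℝ) →L[ℝ] ℝ) (V : ι → ℝ) : L V = ∑ c, V c * L (Pi.single c 1) := by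
  conv_lhs => rw [← Finset.univ_sum_single V]
  rw [map_sum]
  refine Finset.sum_congr rfl fun c _ => ?_
  have h : (Pi.single c (V c) : ι → ℝ) = V c • Pi.single c (1 : ℝ) := by
    rw [← Pi.single_smul, smul_eq_mul, mul_one]
  rw [h, map_smul, smul_eq_mul]

theorem lin_prod (L : ℝ × (ι → ℝ) →L[ℝ] ℝ) (k : ℝ) (V : ι → ℝ) :
    L (1, k • V) = L (1, 0) + ∑ c, k * (V c * L (0, Pi.single c 1)) := by
  have h1 : ((1 : ℝ), k • V) = (1, 0) + k • (0, V) := by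
    ext <;> simp
  have h2 : L (0, V) = ∑ c, V c * L (0, Pi.single c 1) :=
    lin_pi (L.comp (ContinuousLinearMap.inr ℝ ℝ (ι → ℝ))) V
  rw [h1, map_add, map_smul, smul_eq_mul, h2, Finset.mul_sum]

variable {T : ℝ} {F : ℝ × (ι → ℝ) → ℝ}

omit [DecidableEq ι] in
theorem sl2 (h : ∀ q : ℝ × (ι → ℝ), 0 ≤ q.1 → q.1 ≤ T → ContDiffAt ℝ 2 F q) {t : ℝ}
    (h0 : 0 ≤ t) (h1 : t ≤ T) : ContDiff ℝ 2 (fun v => F (t, v)) := by
  rw [contDiff_iff_contDiffAt]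
  intro v
  exact (h (t, v) h0 h1).comp v (contDiffAt_const.prodMk contDiffAt_id)

omit [DecidableEq ι] in
theorem fd1 (h : ∀ q : ℝ × (ι → ℝ), 0 ≤ q.1 → q.1 ≤ T → ContDiffAt ℝ 2 F q)
    (q : ℝ × (ι → ℝ)) (h0 : 0 ≤ q.1) (h1 : q.1 ≤ T) : ContDiffAt ℝ 1 (fderiv ℝ F) q :=
  (h q h0 h1).fderiv_right (m := 1) (by norm_num)

theorem dc1 (h : ∀ q : ℝ × (ι → ℝ), 0 ≤ q.1 → q.1 ≤ T → ContDiffAt ℝ 2 F q) (c : ι)
    (q : ℝ × (ι → ℝ)) (h0 : 0 ≤ q.1) (h1 : q.1 ≤ T) : ContDiffAt ℝ 1 (dC c F) q :=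
  (fd1 h q h0 h1).clm_apply contDiffAt_const

theorem sl1 (h : ∀ q : ℝ × (ι → ℝ), 0 ≤ q.1 → q.1 ≤ T → ContDiffAt ℝ 2 F q) (c : ι) {t : ℝ}
    (h0 : 0 ≤ t) (h1 : t ≤ T) : ContDiff ℝ 1 (fun v => dC c F (t, v)) := by
  rw [contDiff_iff_contDiffAt]
  intro v
  exact (dc1 h c (t, v) h0 h1).comp v (contDiffAt_const.prodMk contDiffAt_id)

omit [DecidableEq ι] in
theorem sl_fd {G : ℝ × (ι → ℝ) → ℝ} {t : ℝ} {v : ι → ℝ} (h : DifferentiableAt ℝ G (t, v)) :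
    HasFDerivAt (fun v => G (t, v)) ((fderiv ℝ G (t, v)).comp
      (ContinuousLinearMap.inr ℝ ℝ (ι → ℝ))) v :=
  h.hasFDerivAt.comp v (hasFDerivAt_prodMk_right t v)

/-- the value -/
def val (ρ : (ι → ℝ) → ℝ) (F : ℝ × (ι → ℝ) → ℝ) (t : ℝ) (V : ι → ℝ) : ℝ :=
  ρ (√t • V) * F (t, √t • V)

/-- the derivative in the time -/
def der (ρ : (ι → ℝ) → ℝ) (F : ℝ × (ι → ℝ) → ℝ) (t : ℝ) (V : ι → ℝ) : ℝ :=
  fderiv ℝ ρ (√t • V) ((1 / (2 * √t)) • V) * F (t, √t • V) +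
    ρ (√t • V) * fderiv ℝ F (t, √t • V) (1, (1 / (2 * √t)) • V)

omit [DecidableEq ι] in
theorem der_has (h : ∀ q : ℝ × (ι → ℝ), 0 ≤ q.1 → q.1 ≤ T → ContDiffAt ℝ 2 F q)
    {ρ : (ι → ℝ) → ℝ} (hρ : ContDiff ℝ 2 ρ) {t : ℝ} (h0 : 0 < t) (h1 : t ≤ T) (V : ι → ℝ) :
    HasDerivAt (fun x => val ρ F x V) (der ρ F t V) t := by
  have e1 : HasDerivAt (fun x : ℝ => √x • V) ((1 / (2 * √t)) • V) t :=
    (Real.hasDerivAt_sqrt h0.ne').smul_const V
  have e2 : HasDerivAt (fun x : ℝ => (x, √x • V)) (1, (1 / (2 * √t)) • V) t :=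
    (hasDerivAt_id t).prodMk e1
  have e3 : HasFDerivAt ρ (fderiv ℝ ρ (√t • V)) (√t • V) :=
    (hρ.differentiable two_ne_zero _).hasFDerivAt
  have e4 : HasFDerivAt F (fderiv ℝ F (t, √t • V)) (t, √t • V) :=
    ((h (t, √t • V) h0.le h1).differentiableAt two_ne_zero).hasFDerivAt
  have e5 := e3.comp_hasDerivAt t e1
  have e6 := HasFDerivAt.comp_hasDerivAt (f := fun x : ℝ => (x, √x • V)) t e4 e2
  exact e5.mul e6

omit [DecidableEq ι] in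
theorem bd1 (h : ∀ q : ℝ × (ι → ℝ), 0 ≤ q.1 → q.1 ≤ T → ContDiffAt ℝ 2 F q)
    {ρ : (ι → ℝ) → ℝ} (hcs : HasCompactSupport ρ) (h01 : ∀ v, 0 ≤ ρ v ∧ ρ v ≤ 1) :
    ∃ C, 0 ≤ C ∧ ∀ q : ℝ × (ι → ℝ), 0 ≤ q.1 → q.1 ≤ T → ρ q.2 * ‖fderiv ℝ F q‖ ≤ C := by
  have hK : IsCompact (Icc 0 T ×ˢ tsupport ρ) := isCompact_Icc.prod hcs
  obtain ⟨C, hC⟩ := hK.exists_bound_of_continuousOn (f := fderiv ℝ F) (fun q hq =>
    (fd1 h q hq.1.1 hq.1.2).continuousAt.continuousWithinAt)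
  refine ⟨max C 0, le_max_right _ _, fun q h0 h1 => ?_⟩
  by_cases hq : q.2 ∈ tsupport ρ
  · calc ρ q.2 * ‖fderiv ℝ F q‖ ≤ 1 * ‖fderiv ℝ F q‖ :=
          mul_le_mul_of_nonneg_right (h01 _).2 (norm_nonneg _)
      _ = ‖fderiv ℝ F q‖ := one_mul _
      _ ≤ C := hC q ⟨⟨h0, h1⟩, hq⟩
      _ ≤ max C 0 := le_max_left _ _
  · rw [image_eq_zero_of_notMem_tsupport hq, zero_mul]
    exact le_max_right _ _

omit [DecidableEq ι] in
theorem val_cont (h : ∀ q : ℝ × (ι → ℝ), 0 ≤ q.1 → q.1 ≤ T → ContDiffAt ℝ 2 F q)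
    {ρ : (ι → ℝ) → ℝ} (hρ : ContDiff ℝ 2 ρ) {t : ℝ} (h0 : 0 ≤ t) (h1 : t ≤ T) :
    Continuous (val ρ F t) := by
  have e1 := (sl2 h h0 h1).continuous
  have e2 := hρ.continuous
  exact (e2.comp (continuous_const_smul _)).mul (e1.comp (continuous_const_smul _))

omit [DecidableEq ι] in
theorem der_cont (h : ∀ q : ℝ × (ι → ℝ), 0 ≤ q.1 → q.1 ≤ T → ContDiffAt ℝ 2 F q)
    {ρ : (ι → ℝ) → ℝ} (hρ : ContDiff ℝ 2 ρ) {t : ℝ} (h0 : 0 ≤ t) (h1 : t ≤ T) :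
    Continuous (der ρ F t) := by
  have e1 := (sl2 h h0 h1).continuous
  have e2 := hρ.continuous
  have e3 : Continuous (fderiv ℝ ρ) := hρ.continuous_fderiv two_ne_zero
  have e4 : Continuous fun v : ι → ℝ => fderiv ℝ F (t, v) := by
    rw [continuous_iff_continuousAt]
    intro v
    exact (fd1 h (t, v) h0 h1).continuousAt.comp (f := fun v : ι → ℝ => (t, v))
      (Continuous.prodMk_right t).continuousAt
  have s1 : Continuous fun V : ι → ℝ => √t • V := continuous_const_smul _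
  have s2 : Continuous fun V : ι → ℝ => (1 / (2 * √t)) • V := continuous_const_smul _
  exact (((e3.comp s1).clm_apply s2).mul (e1.comp s1)).add
    ((e2.comp s1).mul ((e4.comp s1).clm_apply (continuous_const.prodMk s2)))

/-- the derivative of the mean -/
theorem u_der (h : ∀ q : ℝ × (ι → ℝ), 0 ≤ q.1 → q.1 ≤ T → ContDiffAt ℝ 2 F q)
    (hb : ∀ q : ℝ × (ι → ℝ), 0 ≤ q.1 → q.1 ≤ T → 0 ≤ F q ∧ F q ≤ 1)
    {ρ : (ι → ℝ) → ℝ} (hρ : ContDiff ℝ 2 ρ) (hcs : HasCompactSupport ρ)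
    (h01 : ∀ v, 0 ≤ ρ v ∧ ρ v ≤ 1) {t : ℝ} (h0 : 0 < t) (h1 : t < T) :
    HasDerivAt (fun x => ∫ V, val ρ F x V ∂(sg ι)) (∫ V, der ρ F t V ∂(sg ι)) t := by
  obtain ⟨C₁, hC₁0, hC₁⟩ := bd1 h hcs h01
  have e3 : Continuous (fderiv ℝ ρ) := hρ.continuous_fderiv two_ne_zero
  obtain ⟨C₂, hC₂⟩ := e3.bounded_above_of_compact_support (hcs.fderiv (𝕜 := ℝ))
  have hC₂0 : 0 ≤ C₂ := (norm_nonneg _).trans (hC₂ 0)
  have hs : Ioo (t / 2) T ∈ 𝓝 t := Ioo_mem_nhds (by linarith) h1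
  have hval : ∀ x, 0 ≤ x → x ≤ T → ∀ V, ‖val ρ F x V‖ ≤ 1 := by
    intro x hx0 hx1 V
    unfold val
    obtain ⟨a1, a2⟩ := h01 (√x • V)
    obtain ⟨a3, a4⟩ := hb (x, √x • V) hx0 hx1
    rw [Real.norm_of_nonneg (mul_nonneg a1 a3)]
    exact mul_le_one₀ a2 a3 a4
  set k : ℝ := 1 / (2 * √(t / 2)) with hk
  have hk0 : 0 ≤ k := by positivity
  refine (hasDerivAt_integral_of_dominated_loc_of_deriv_le (s := Ioo (t / 2) T)
    (bound := fun V => C₂ * (k * ‖V‖) + C₁ * (1 + k * ‖V‖)) hs ?_ ?_ ?_ ?_ ?_ ?_).2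
  · filter_upwards [hs] with x hx
    exact (val_cont h hρ (by linarith [hx.1]) hx.2.le).aestronglyMeasurable
  · refine (integrable_const (1 : ℝ)).mono' (val_cont h hρ h0.le h1.le).aestronglyMeasurable
      (Eventually.of_forall (hval t h0.le h1.le))
  · exact (der_cont h hρ h0.le h1.le).aestronglyMeasurable
  · refine Eventually.of_forall fun V x hx => ?_
    have hx0 : 0 < x := by linarith [hx.1]
    have hkx : 1 / (2 * √x) ≤ k := by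
      apply one_div_le_one_div_of_le (by positivity)
      have : √(t / 2) ≤ √x := Real.sqrt_le_sqrt hx.1.le
      linarith
    have hkx0 : 0 ≤ 1 / (2 * √x) := by positivity
    have n1 : ‖(1 / (2 * √x)) • V‖ ≤ k * ‖V‖ := by
      rw [norm_smul, Real.norm_of_nonneg hkx0]
      exact mul_le_mul_of_nonneg_right hkx (norm_nonneg _)
    have n2 : ‖((1 : ℝ), (1 / (2 * √x)) • V)‖ ≤ 1 + k * ‖V‖ := by
      rw [Prod.norm_mk]
      apply max_le
      · rw [norm_one]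
        have : 0 ≤ k * ‖V‖ := by positivity
        linarith
      · linarith
    have n3 : ‖F (x, √x • V)‖ ≤ 1 := by
      obtain ⟨a3, a4⟩ := hb (x, √x • V) hx0.le hx.2.le
      rw [Real.norm_of_nonneg a3]
      exact a4
    unfold der
    refine (norm_add_le _ _).trans (add_le_add ?_ ?_)
    · rw [norm_mul]
      calc ‖fderiv ℝ ρ (√x • V) ((1 / (2 * √x)) • V)‖ * ‖F (x, √x • V)‖
          ≤ (‖fderiv ℝ ρ (√x • V)‖ * ‖(1 / (2 * √x)) • V‖) * 1 :=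
            mul_le_mul (ContinuousLinearMap.le_opNorm _ _) n3 (norm_nonneg _)
              (mul_nonneg (norm_nonneg _) (norm_nonneg _))
        _ = ‖fderiv ℝ ρ (√x • V)‖ * ‖(1 / (2 * √x)) • V‖ := mul_one _
        _ ≤ C₂ * (k * ‖V‖) := mul_le_mul (hC₂ _) n1 (norm_nonneg _) hC₂0
    · rw [norm_mul, Real.norm_of_nonneg (h01 _).1]
      calc ρ (√x • V) * ‖fderiv ℝ F (x, √x • V) (1, (1 / (2 * √x)) • V)‖
          ≤ ρ (√x • V) * (‖fderiv ℝ F (x, √x • V)‖ * ‖((1 : ℝ), (1 / (2 * √x)) • V)‖) :=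
            mul_le_mul_of_nonneg_left (ContinuousLinearMap.le_opNorm _ _) (h01 _).1
        _ = (ρ (√x • V) * ‖fderiv ℝ F (x, √x • V)‖) * ‖((1 : ℝ), (1 / (2 * √x)) • V)‖ := by
            ring
        _ ≤ C₁ * (1 + k * ‖V‖) :=
            mul_le_mul (hC₁ (x, √x • V) hx0.le hx.2.le) n2 (norm_nonneg _) hC₁0
  · have i1 : Integrable (fun V : ι → ℝ => ‖V‖) (sg ι) := int_norm
    exact ((i1.const_mul k).const_mul C₂).add
      (((integrable_const (1 : ℝ)).add (i1.const_mul k)).const_mul C₁)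
  · exact Eventually.of_forall fun V x hx =>
      der_has h hρ (by linarith [hx.1]) hx.2.le V

omit [DecidableEq ι] in
theorem u_cont (h : ∀ q : ℝ × (ι → ℝ), 0 ≤ q.1 → q.1 ≤ T → ContDiffAt ℝ 2 F q)
    (hb : ∀ q : ℝ × (ι → ℝ), 0 ≤ q.1 → q.1 ≤ T → 0 ≤ F q ∧ F q ≤ 1)
    {ρ : (ι → ℝ) → ℝ} (hρ : ContDiff ℝ 2 ρ) (h01 : ∀ v, 0 ≤ ρ v ∧ ρ v ≤ 1) :
    ContinuousOn (fun x => ∫ V, val ρ F x V ∂(sg ι)) (Icc 0 T) := by
  refine continuousOn_of_dominated (bound := fun _ => (1 : ℝ)) ?_ ?_ (integrable_const _) ?_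
  · intro x hx
    exact (val_cont h hρ hx.1 hx.2).aestronglyMeasurable
  · intro x hx
    refine Eventually.of_forall fun V => ?_
    unfold val
    obtain ⟨a1, a2⟩ := h01 (√x • V)
    obtain ⟨a3, a4⟩ := hb (x, √x • V) hx.1 hx.2
    rw [Real.norm_of_nonneg (mul_nonneg a1 a3)]
    exact mul_le_one₀ a2 a3 a4
  · refine Eventually.of_forall fun V x hx => ?_
    apply ContinuousAt.continuousWithinAt
    have s1 : Continuous fun x : ℝ => √x • V := Real.continuous_sqrt.smul continuous_const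
    have s2 : Continuous fun x : ℝ => (x, √x • V) := continuous_id.prodMk s1
    unfold val
    exact (hρ.continuous.comp s1).continuousAt.mul
      ((h (x, √x • V) hx.1 hx.2).continuousAt.comp (f := fun x : ℝ => (x, √x • V))
        s2.continuousAt)

end Pool.Agent.LE.QF.H2
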