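import Pool.Agent.Helper2_LQF.FLB

/-!
# FLW, part 3: the drift
-/

set_option autoImplicit false

open MeasureTheory ProbabilityTheory Function Filter Set

open scoped ENNReal BigOperators Topology NNReal

noncomputable section

namespace Pool.Agent.LE.QF.H2

variable {ι : Type} [Fintype ι] [DecidableEq ι]

variable {T : ℝ} {F : ℝ × (ι → ℝ) → ℝ}

theorem sl_dC (h : ∀ q : ℝ × (ι → ℝ), 0 ≤ q.1 → q.1 ≤ T → ContDiffAt ℝ 2 F q) (c : ι) {t : ℝ}
    (h0 : 0 ≤ t) (h1 : t ≤ T) (v : ι → ℝ) :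
    fderiv ℝ (fun v => F (t, v)) v (Pi.single c 1) = dC c F (t, v) := by
  rw [(sl_fd ((h (t, v) h0 h1).differentiableAt two_ne_zero)).fderiv]
  rfl

theorem sl_dC2 (h : ∀ q : ℝ × (ι → ℝ), 0 ≤ q.1 → q.1 ≤ T → ContDiffAt ℝ 2 F q) (c : ι) {t : ℝ}
    (h0 : 0 ≤ t) (h1 : t ≤ T) (v : ι → ℝ) :
    fderiv ℝ (fun v => dC c F (t, v)) v (Pi.single c 1) = dC c (dC c F) (t, v) := by
  rw [(sl_fd ((dc1 h c (t, v) h0 h1).differentiableAt one_ne_zero)).fderiv]
  rfl

theorem sl_dC2_cont (h : ∀ q : ℝ × (ι → ℝ), 0 ≤ q.1 → q.1 ≤ T → ContDiffAt ℝ 2 F q) (c : ι)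
    {t : ℝ} (h0 : 0 ≤ t) (h1 : t ≤ T) : Continuous fun v => dC c (dC c F) (t, v) := by
  have e : (fun v => dC c (dC c F) (t, v)) =
      fun v => fderiv ℝ (fun v => dC c F (t, v)) v (Pi.single c 1) := by
    funext v
    exact (sl_dC2 h c h0 h1 v).symm
  rw [e]
  exact ((sl1 h c h0 h1).continuous_fderiv one_ne_zero).clm_apply continuous_const

omit [DecidableEq ι] in
theorem sl_t_cont (h : ∀ q : ℝ × (ι → ℝ), 0 ≤ q.1 → q.1 ≤ T → ContDiffAt ℝ 2 F q)
    {t : ℝ} (h0 : 0 ≤ t) (h1 : t ≤ T) : Continuous fun v : ι → ℝ => fderiv ℝ F (t, v) (1, 0) := by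
  have e4 : Continuous fun v : ι → ℝ => fderiv ℝ F (t, v) := by
    rw [continuous_iff_continuousAt]
    intro v
    exact (fd1 h (t, v) h0 h1).continuousAt.comp (f := fun v : ι → ℝ => (t, v))
      (Continuous.prodMk_right t).continuousAt
  exact e4.clm_apply continuous_const

/-- the derivative in the coordinate `c` -/
def dD (c : ι) (ρ : (ι → ℝ) → ℝ) (v : ι → ℝ) : ℝ := fderiv ℝ ρ v (Pi.single c 1)

theorem dD_C1 (c : ι) {ρ : (ι → ℝ) → ℝ} (hρ : ContDiff ℝ 2 ρ) : ContDiff ℝ 1 (dD c ρ) :=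
  (hρ.fderiv_right (m := 1) (by norm_num)).clm_apply contDiff_const

omit [Fintype ι] in
theorem dD_cs (c : ι) {ρ : (ι → ℝ) → ℝ} (hcs : HasCompactSupport ρ) :
    HasCompactSupport (dD c ρ) := by
  have h := hcs.fderiv (𝕜 := ℝ)
  exact h.comp_left (g := fun L : (ι → ℝ) →L[ℝ] ℝ => L (Pi.single c 1)) rfl

theorem dD_mul (c : ι) {f g : (ι → ℝ) → ℝ} {v : ι → ℝ} (hf : DifferentiableAt ℝ f v)
    (hg : DifferentiableAt ℝ g v) :
    dD c (fun v => f v * g v) v = f v * dD c g v + dD c f v * g v := by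
  unfold dD
  rw [fderiv_fun_mul hf hg]
  simp only [add_apply, smul_apply, smul_eq_mul]
  ring

/-- the integral of the derivative -/
theorem der_int (ste : QD.SteStmt)
    (h : ∀ q : ℝ × (ι → ℝ), 0 ≤ q.1 → q.1 ≤ T → ContDiffAt ℝ 2 F q)
    {ρ : (ι → ℝ) → ℝ} (hρ : ContDiff ℝ 2 ρ) (hcs : HasCompactSupport ρ)
    {t : ℝ} (h0 : 0 < t) (h1 : t ≤ T) :
    ∫ V, der ρ F t V ∂(sg ι) =
      (∫ V, ρ (√t • V) * LL F (t, √t • V) ∂(sg ι)) +
        (1 / √t) * ∑ c, (∫ V, V c * (dD c ρ (√t • V) * F (t, √t • V)) ∂(sg ι)) -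
        (1 / 2) * ∑ c, ∫ V, dD c (dD c ρ) (√t • V) * F (t, √t • V) ∂(sg ι) := by
  set s : ℝ := √t with hs
  have hs0 : 0 < s := Real.sqrt_pos.2 h0
  have hρc := hρ.continuous
  have hFc := (sl2 h h0.le h1).continuous
  -- the functions
  have C0 : CC fun v : ι → ℝ => ρ v * fderiv ℝ F (t, v) (1, 0) :=
    ⟨hρc.mul (sl_t_cont h h0.le h1), hcs.mul_right⟩
  have CP : ∀ c : ι, CC fun v : ι → ℝ => ρ v * dC c F (t, v) := fun c =>
    ⟨hρc.mul (sl1 h c h0.le h1).continuous, hcs.mul_right⟩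
  have CR : ∀ c : ι, CC fun v : ι → ℝ => dD c ρ v * F (t, v) := fun c =>
    ⟨(dD_C1 c hρ).continuous.mul hFc, (dD_cs c hcs).mul_right⟩
  have CS : ∀ c : ι, CC fun v : ι → ℝ => ρ v * dC c (dC c F) (t, v) := fun c =>
    ⟨hρc.mul (sl_dC2_cont h c h0.le h1), hcs.mul_right⟩
  have CX : ∀ c : ι, CC fun v : ι → ℝ => dD c ρ v * dC c F (t, v) := fun c =>
    ⟨(dD_C1 c hρ).continuous.mul (sl1 h c h0.le h1).continuous, (dD_cs c hcs).mul_right⟩
  have cY : ∀ c : ι, Continuous (dD c (dD c ρ)) := fun c =>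
    ((dD_C1 c hρ).continuous_fderiv one_ne_zero).clm_apply continuous_const
  have CY : ∀ c : ι, CC fun v : ι → ℝ => dD c (dD c ρ) v * F (t, v) := fun c =>
    ⟨(cY c).mul hFc, (dD_cs c (dD_cs c hcs)).mul_right⟩
  -- integration by parts
  have IP : ∀ c : ι, ∫ V, V c * (ρ (s • V) * dC c F (t, s • V)) ∂(sg ι) =
      s * ((∫ V, ρ (s • V) * dC c (dC c F) (t, s • V) ∂(sg ι)) +
        ∫ V, dD c ρ (s • V) * dC c F (t, s • V) ∂(sg ι)) := by
    intro c
    have e := ibp ste c (fun v => ρ v * dC c F (t, v))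
      ((hρ.of_le (by norm_num)).mul (sl1 h c h0.le h1)) (CP c).2 hs0.le
    rw [e, ← integral_add ((CS c).int s) ((CX c).int s)]
    congr 1
    refine integral_congr_ae (Eventually.of_forall fun V => ?_)
    have e2 := dD_mul c (f := ρ) (g := fun v => dC c F (t, v)) (v := s • V)
      (hρ.differentiable two_ne_zero _) ((sl1 h c h0.le h1).differentiable one_ne_zero _)
    change dD c (fun v => ρ v * dC c F (t, v)) (s • V) = _
    rw [e2]
    change _ * fderiv ℝ (fun v => dC c F (t, v)) (s • V) (Pi.single c 1) + _ = _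
    rw [sl_dC2 h c h0.le h1]
  have IR : ∀ c : ι, ∫ V, V c * (dD c ρ (s • V) * F (t, s • V)) ∂(sg ι) =
      s * ((∫ V, dD c ρ (s • V) * dC c F (t, s • V) ∂(sg ι)) +
        ∫ V, dD c (dD c ρ) (s • V) * F (t, s • V) ∂(sg ι)) := by
    intro c
    have e := ibp ste c (fun v => dD c ρ v * F (t, v))
      ((dD_C1 c hρ).mul ((sl2 h h0.le h1).of_le (by norm_num))) (CR c).2 hs0.le
    rw [e, ← integral_add ((CX c).int s) ((CY c).int s)]
    congr 1
    refine integral_congr_ae (Eventually.of_forall fun V => ?_)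
    have e2 := dD_mul c (f := dD c ρ) (g := fun v => F (t, v)) (v := s • V)
      ((dD_C1 c hρ).differentiable one_ne_zero _) ((sl2 h h0.le h1).differentiable two_ne_zero _)
    change dD c (fun v => dD c ρ v * F (t, v)) (s • V) = _
    rw [e2]
    change _ * fderiv ℝ (fun v => F (t, v)) (s • V) (Pi.single c 1) + _ = _
    rw [sl_dC h c h0.le h1]
  -- the derivative
  have hder : ∀ V : ι → ℝ, der ρ F t V = ρ (s • V) * fderiv ℝ F (t, s • V) (1, 0) +
      ((∑ c, (1 / (2 * s)) * (V c * (ρ (s • V) * dC c F (t, s • V)))) +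
        ∑ c, (1 / (2 * s)) * (V c * (dD c ρ (s • V) * F (t, s • V)))) := by
    intro V
    unfold der
    rw [← hs, lin_prod, map_smul, lin_pi (fderiv ℝ ρ (s • V)) V, smul_eq_mul, mul_add,
      Finset.mul_sum, Finset.mul_sum, Finset.sum_mul]
    have e1 : ∀ c : ι, ρ (s • V) * ((1 / (2 * s)) * (V c *
        fderiv ℝ F (t, s • V) (0, Pi.single c 1))) =
        (1 / (2 * s)) * (V c * (ρ (s • V) * dC c F (t, s • V))) := by
      intro c
      unfold dC
      ring
    have e2 : ∀ c : ι, (1 / (2 * s)) * (V c * fderiv ℝ ρ (s • V) (Pi.single c 1)) *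
        F (t, s • V) = (1 / (2 * s)) * (V c * (dD c ρ (s • V) * F (t, s • V))) := by
      intro c
      unfold dD
      ring
    simp only [e1, e2]
    ring
  have i1 : Integrable (fun V : ι → ℝ => ∑ c, (1 / (2 * s)) *
      (V c * (ρ (s • V) * dC c F (t, s • V)))) (sg ι) :=
    integrable_finsetSum _ fun c _ => ((CP c).int_mul s c).const_mul _
  have i2 : Integrable (fun V : ι → ℝ => ∑ c, (1 / (2 * s)) *
      (V c * (dD c ρ (s • V) * F (t, s • V)))) (sg ι) :=
    integrable_finsetSum _ fun c _ => ((CR c).int_mul s c).const_mul _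
  have i12 : Integrable (fun V : ι → ℝ => (∑ c, (1 / (2 * s)) *
      (V c * (ρ (s • V) * dC c F (t, s • V)))) + ∑ c, (1 / (2 * s)) *
      (V c * (dD c ρ (s • V) * F (t, s • V)))) (sg ι) := i1.add i2
  have hLL : ∫ V, ρ (s • V) * LL F (t, s • V) ∂(sg ι) =
      (∫ V, ρ (s • V) * fderiv ℝ F (t, s • V) (1, 0) ∂(sg ι)) +
        ∑ c, (1 / 2) * ∫ V, ρ (s • V) * dC c (dC c F) (t, s • V) ∂(sg ι) := by
    have e1 : ∀ V : ι → ℝ, ρ (s • V) * LL F (t, s • V) =
        ρ (s • V) * fderiv ℝ F (t, s • V) (1, 0) +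
          ∑ c, (1 / 2) * (ρ (s • V) * dC c (dC c F) (t, s • V)) := by
      intro V
      unfold LL
      rw [smul_eq_mul, mul_add, Finset.mul_sum, Finset.mul_sum, add_comm]
      congr 1
      refine Finset.sum_congr rfl fun c _ => ?_
      ring
    simp only [e1]
    rw [integral_add (C0.int s)
      (integrable_finsetSum _ fun c _ => ((CS c).int s).const_mul _),
      integral_finsetSum _ fun c _ => ((CS c).int s).const_mul _]
    simp only [integral_const_mul]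
  simp only [hder]
  rw [integral_add (C0.int s) i12, integral_add i1 i2,
    integral_finsetSum _ fun c _ => ((CP c).int_mul s c).const_mul _,
    integral_finsetSum _ fun c _ => ((CR c).int_mul s c).const_mul _, hLL, add_assoc, add_sub_assoc,
    add_right_inj, Finset.mul_sum, Finset.mul_sum, ← Finset.sum_add_distrib,
    ← Finset.sum_add_distrib, ← Finset.sum_sub_distrib]
  refine Finset.sum_congr rfl fun c _ => ?_
  rw [integral_const_mul, integral_const_mul, IP, IR]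
  field_simp
  ring

end Pool.Agent.LE.QF.H2
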